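import Pool.Agent.Helper40.DZ.Stmts

/-!
Riemann integrable functions along the multiples of primes (MP_7a8f48_an, row PAR).
-/

open Finset Filter MeasureTheory Topology
open scoped ComplexConjugate InnerProductSpace

namespace Pool.Agent.Helper40.DZ

open Pool.Agent.Helper16.AZ (T E Op mm fc)
open Pool.Agent.Helper16.BZ (EQ)
open Pool.Agent.Helper16.CZ (Tw)
open UnitAddTorus (mFourier)

theorem par_int {r : ℕ} (f : T r → ℂ) (hf : Continuous f) : Integrable f (mm r) :=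
  hf.integrable_of_hasCompactSupport (HasCompactSupport.of_compactSpace _)

theorem par_orth {r : ℕ} (X Y : Fin r → ℤ) :
    ∫ θ, mFourier (-X) θ * mFourier Y θ ∂(mm r) = if X = Y then 1 else 0 := by
  have h := (orthonormal_iff_ite.1 (UnitAddTorus.orthonormal_mFourier (d := Fin r))) X Y
  rw [ContinuousMap.inner_toLp] at h
  rw [← h]
  show _ = ∫ θ, mFourier Y θ * conj (mFourier X θ) ∂(mm r)
  refine integral_congr_ae (Eventually.of_forall fun θ => ?_)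
  simp only
  rw [UnitAddTorus.mFourier_neg, mul_comm]

theorem par_fc {r : ℕ} (A : Finset (Fin r → ℤ)) (a : (Fin r → ℤ) → ℂ) (X : Fin r → ℤ) :
    fc (fun θ => ∑ Y ∈ A, a Y * mFourier Y θ) X = if X ∈ A then a X else 0 := by
  unfold fc
  have e1 : ∀ θ : T r, mFourier (-X) θ * ∑ Y ∈ A, a Y * mFourier Y θ =
      ∑ Y ∈ A, a Y * (mFourier (-X) θ * mFourier Y θ) := by
    intro θ
    rw [Finset.mul_sum]
    refine Finset.sum_congr rfl fun Y _ => ?_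
    ring
  simp only [e1]
  rw [integral_finsetSum]
  · simp only [integral_const_mul, par_orth, mul_ite, mul_one, mul_zero]
    rw [Finset.sum_ite_eq]
  · intro Y _
    exact par_int _ (continuous_const.mul ((mFourier (-X)).continuous.mul (mFourier Y).continuous))

theorem par_app {r : ℕ} (F : T r → ℂ) (hF : Continuous F) (e : ℝ) (he : 0 < e) :
    ∃ c : (Fin r → ℤ) →₀ ℂ, ∀ x, ‖F x - ∑ X ∈ c.support, c X * mFourier X x‖ ≤ e := by
  obtain ⟨f, hf⟩ : ∃ f : C(T r, ℂ), f = ⟨F, hF⟩ := ⟨_, rfl⟩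
  have h1 : f ∈ closure ((Submodule.span ℂ (Set.range (mFourier (d := Fin r))) :
      Submodule ℂ C(T r, ℂ)) : Set C(T r, ℂ)) := by
    rw [← Submodule.topologicalClosure_coe, UnitAddTorus.span_mFourier_closure_eq_top (d := Fin r)]
    trivial
  obtain ⟨g, hg, hd⟩ := Metric.mem_closure_iff.1 h1 e he
  obtain ⟨c, hc⟩ := (Finsupp.mem_span_range_iff_exists_finsupp).1 hg
  refine ⟨c, fun x => ?_⟩
  have h2 : g x = ∑ X ∈ c.support, c X * mFourier X x := by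
    rw [← hc, Finsupp.sum, ContinuousMap.sum_apply]
    rfl
  rw [← h2]
  have h3 := (f - g).norm_coe_le_norm x
  rw [dist_eq_norm] at hd
  have h4 : (f - g) x = F x - g x := by rw [hf]; rfl
  rw [← h4]
  exact h3.trans hd.le

/-- approximation of a Riemann integrable function by a trigonometric polynomial -/
theorem par_apx (h2 : ST_RIS) {r : ℕ} {F : T r → ℂ} {C : ℝ} (hF : RI F) (hC : ∀ x, ‖F x‖ ≤ C)
    {δ : ℝ} (hδ : 0 < δ) (hδ1 : δ ≤ 1) : ∃ (c : (Fin r → ℤ) →₀ ℂ) (R : T r → ℝ), Continuous R ∧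
    (∀ x, ‖F x - ∑ X ∈ c.support, c X * mFourier X x‖ ≤ R x) ∧ (∀ x, R x ≤ 2 * C + 1) ∧
    ∫ x, R x ∂(mm r) ≤ 2 * δ := by
  obtain ⟨G, R, hG, hR, a1, a2, -, a4⟩ := h2 r ℂ F C hF.1 hC δ hδ
  obtain ⟨c, hc⟩ := par_app G hG δ hδ
  refine ⟨c, fun x => R x + δ, hR.add continuous_const, fun x => ?_, fun x => ?_, ?_⟩
  · calc ‖F x - ∑ X ∈ c.support, c X * mFourier X x‖
        = ‖(F x - G x) + (G x - ∑ X ∈ c.support, c X * mFourier X x)‖ := by congr 1; ring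
      _ ≤ _ := norm_add_le _ _
      _ ≤ R x + δ := add_le_add (a1 x) (hc x)
  · have := a2 x
    linarith
  · rw [integral_add (hR.integrable_of_hasCompactSupport (HasCompactSupport.of_compactSpace _))
      (integrable_const _)]
    simp only [integral_const, probReal_univ, smul_eq_mul, one_mul]
    linarith

theorem par_sqrt {a b s C : ℝ} (hs : 0 ≤ s) (ha : 0 ≤ a) (hb : 0 ≤ b) (hbC : b ≤ C ^ 2)
    (hC : 0 ≤ C) (h : Real.sqrt a ≤ Real.sqrt b + s) : a ≤ b + (2 * C * s + s ^ 2) := by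
  have h1 : a = Real.sqrt a ^ 2 := (Real.sq_sqrt ha).symm
  have h2 : b = Real.sqrt b ^ 2 := (Real.sq_sqrt hb).symm
  have h3 : Real.sqrt b ≤ C := Real.sqrt_le_iff.2 ⟨hC, hbC⟩
  have h4 : Real.sqrt a ^ 2 ≤ (Real.sqrt b + s) ^ 2 := pow_le_pow_left₀ (Real.sqrt_nonneg _) h 2
  have h5 : Real.sqrt b * s ≤ C * s := mul_le_mul_of_nonneg_right h3 hs
  nlinarith

/-- the bounds for one function -/
theorem par_one (h4 : ST_FPR) (h5 : ST_MQC) (h6 : ST_NRD) {r : ℕ} (lev : Fin r → ℕ)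
    {F : T r → ℂ} {C : ℝ} (hF : RI F) (hC : ∀ x, ‖F x‖ ≤ C) (hC0 : 0 ≤ C)
    (A : Finset (Fin r → ℤ)) (a : (Fin r → ℤ) → ℂ) (h0 : 0 ∈ A) {R : T r → ℝ}
    (hR : Continuous R) (b1 : ∀ x, ‖F x - ∑ X ∈ A, a X * mFourier X x‖ ≤ R x)
    (b2 : ∀ x, R x ≤ 2 * C + 1) {δ c : ℝ} (hδ : 0 ≤ δ) (b3 : ∫ x, R x ∂(mm r) ≤ 2 * δ ^ 2)
    (hc : 0 ≤ c) (hc2 : c ^ 2 = 2 * (2 * C + 1)) :
    ‖a 0 - ∫ y, F y ∂(mm r)‖ ≤ 2 * δ ^ 2 ∧
    ∑ X ∈ A, ‖a X‖ ^ 2 ≤ ∫ y, ‖F y‖ ^ 2 ∂(mm r) + (4 * C + 1) * (2 * δ ^ 2) ∧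
    (∀ q, ∑ X ∈ A, (RR lev q).indicator (fun X => ‖a X‖ ^ 2) X ≤
      mq lev q F + (2 * C * (c * δ) + (c * δ) ^ 2)) ∧
    ∫ x, R x ^ 2 ∂(mm r) ≤ (2 * C + 1) * (2 * δ ^ 2) := by
  obtain ⟨P, hP⟩ : ∃ P : T r → ℂ, P = fun θ => ∑ X ∈ A, a X * mFourier X θ := ⟨_, rfl⟩
  have hPc : Continuous P := by
    rw [hP]
    exact continuous_finsetSum _ fun X _ => continuous_const.mul (mFourier X).continuous
  have hPR : RI P := RI.of_continuous hPc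
  have hRR : RI R := RI.of_continuous hR
  have b1' : ∀ x, ‖F x - P x‖ ≤ R x := fun x => by rw [hP]; exact b1 x
  have hR0 : ∀ x, 0 ≤ R x := fun x => (norm_nonneg _).trans (b1 x)
  have iR : Integrable R (mm r) := hRR.integrable
  have iR2 : Integrable (fun x => R x ^ 2) (mm r) := (RI.of_continuous (hR.pow 2)).integrable
  have iF2 : Integrable (fun x => ‖F x‖ ^ 2) (mm r) := by
    have := hF.norm.cont_comp (g := fun t : ℝ => t ^ 2) (continuous_pow 2)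
    exact this.integrable
  have iP2 : Integrable (fun x => ‖P x‖ ^ 2) (mm r) :=
    (RI.of_continuous (hPc.norm.pow 2)).integrable
  have hfc : ∀ X, fc P X = if X ∈ A then a X else 0 := by
    intro X
    rw [hP]
    exact par_fc A a X
  have hR2 : ∫ x, R x ^ 2 ∂(mm r) ≤ (2 * C + 1) * (2 * δ ^ 2) := by
    calc ∫ x, R x ^ 2 ∂(mm r) ≤ ∫ x, (2 * C + 1) * R x ∂(mm r) := by
          refine integral_mono iR2 (iR.const_mul _) fun x => ?_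
          have := b2 x
          have := hR0 x
          show R x ^ 2 ≤ (2 * C + 1) * R x
          nlinarith
      _ = (2 * C + 1) * ∫ x, R x ∂(mm r) := integral_const_mul _ _
      _ ≤ _ := mul_le_mul_of_nonneg_left b3 (by linarith)
  refine ⟨?_, ?_, fun q => ?_, hR2⟩
  · have e1 : a 0 = ∫ y, P y ∂(mm r) := by
      have := hfc 0
      rw [if_pos h0] at this
      rw [← this]
      unfold fc
      simp only [neg_zero, UnitAddTorus.mFourier_zero, ContinuousMap.one_apply, one_mul]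
    rw [e1, ← integral_sub hPR.integrable hF.integrable]
    refine (norm_integral_le_of_norm_le iR (Eventually.of_forall fun x => ?_)).trans b3
    rw [norm_sub_rev]
    exact b1' x
  · have e1 : ∑ X ∈ A, ‖a X‖ ^ 2 = ∫ y, ‖P y‖ ^ 2 ∂(mm r) := by
      have g1 := (h4 r P (hPR.memLp 2)).1
      have g2 : HasSum (fun X : Fin r → ℤ => ‖fc P X‖ ^ 2) (∑ X ∈ A, ‖fc P X‖ ^ 2) :=
        hasSum_sum_of_ne_finset_zero fun X hX => by rw [hfc, if_neg hX]; simp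
      rw [← g2.unique g1]
      exact Finset.sum_congr rfl fun X hX => by rw [hfc, if_pos hX]
    rw [e1]
    calc ∫ y, ‖P y‖ ^ 2 ∂(mm r) ≤ ∫ y, (‖F y‖ ^ 2 + (4 * C + 1) * R y) ∂(mm r) := by
          refine integral_mono iP2 (iF2.add (iR.const_mul _)) fun x => ?_
          show ‖P x‖ ^ 2 ≤ ‖F x‖ ^ 2 + (4 * C + 1) * R x
          have g1 : ‖P x‖ ≤ ‖F x‖ + R x := by
            calc ‖P x‖ = ‖F x - (F x - P x)‖ := by congr 1; ring
              _ ≤ _ := norm_sub_le _ _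
              _ ≤ _ := by have := b1' x; linarith
          have g2 := hC x
          have g3 := norm_nonneg (F x)
          have g4 := hR0 x
          have g5 := b2 x
          have g6 : ‖P x‖ ^ 2 ≤ (‖F x‖ + R x) ^ 2 := pow_le_pow_left₀ (norm_nonneg _) g1 2
          nlinarith
      _ = ∫ y, ‖F y‖ ^ 2 ∂(mm r) + (4 * C + 1) * ∫ x, R x ∂(mm r) := by
          rw [integral_add iF2 (iR.const_mul _), integral_const_mul]
      _ ≤ _ := by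
          have := mul_le_mul_of_nonneg_left b3 (show 0 ≤ 4 * C + 1 by linarith)
          linarith
  · have e1 : ∑ X ∈ A, (RR lev q).indicator (fun X => ‖a X‖ ^ 2) X = mq lev q P := by
      unfold mq
      rw [tsum_eq_sum (s := A)]
      · refine Finset.sum_congr rfl fun X hX => ?_
        unfold Set.indicator
        dsimp only
        rw [hfc, if_pos hX]
      · intro X hX
        unfold Set.indicator
        dsimp only
        rw [hfc, if_neg hX]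
        simp
    rw [e1]
    have g1 := h5 r lev q F P (hF.memLp 2) (hPR.memLp 2)
    have g2 := (h6 r lev F (hF.memLp 2)).2.2.1 q
    have g3 := ((h6 r lev P (hPR.memLp 2)).2.2.1 q).1
    have g4 : ∫ θ, ‖F θ‖ ^ 2 ∂(mm r) ≤ C ^ 2 := by
      calc ∫ θ, ‖F θ‖ ^ 2 ∂(mm r) ≤ ∫ _θ : T r, C ^ 2 ∂(mm r) :=
            integral_mono iF2 (integrable_const _) fun x =>
              pow_le_pow_left₀ (norm_nonneg _) (hC x) 2
        _ = C ^ 2 := by simp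
    have g5 : ∫ θ, ‖P θ - F θ‖ ^ 2 ∂(mm r) ≤ (c * δ) ^ 2 := by
      have g6 : Integrable (fun x => ‖P x - F x‖ ^ 2) (mm r) :=
        ((hPR.sub hF).norm.cont_comp (g := fun t : ℝ => t ^ 2) (continuous_pow 2)).integrable
      calc ∫ θ, ‖P θ - F θ‖ ^ 2 ∂(mm r) ≤ ∫ θ, R θ ^ 2 ∂(mm r) := by
            refine integral_mono g6 iR2 fun x => ?_
            refine pow_le_pow_left₀ (norm_nonneg _) ?_ 2
            rw [norm_sub_rev]
            exact b1' x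
        _ ≤ _ := hR2
        _ = (c * δ) ^ 2 := by rw [mul_pow, hc2]; ring
    have g6 : Real.sqrt (∫ θ, ‖P θ - F θ‖ ^ 2 ∂(mm r)) ≤ c * δ :=
      Real.sqrt_le_iff.2 ⟨by positivity, g5⟩
    exact par_sqrt (by positivity) g3 g2.1 (g2.2.trans g4) hC0 (g1.trans (by linarith))

theorem par_young (a b : ℂ) {η t : ℝ} (hη : 0 < η) (h : ‖a - b‖ ≤ t) :
    ‖a‖ ^ 2 ≤ (1 + η) * ‖b‖ ^ 2 + (1 + 1 / η) * t ^ 2 := by
  have h1 : ‖a‖ ≤ ‖b‖ + t := by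
    calc ‖a‖ = ‖b + (a - b)‖ := by congr 1; ring
      _ ≤ _ := norm_add_le _ _
      _ ≤ _ := by linarith
  have ht : 0 ≤ t := (norm_nonneg _).trans h
  have h2 : ‖a‖ ^ 2 ≤ (‖b‖ + t) ^ 2 := pow_le_pow_left₀ (norm_nonneg _) h1 2
  have h3 : 2 * ‖b‖ * t ≤ η * ‖b‖ ^ 2 + 1 / η * t ^ 2 := by
    have h4 : 0 ≤ (η * ‖b‖ - t) ^ 2 / η := by positivity
    have h5 : (η * ‖b‖ - t) ^ 2 / η = η * ‖b‖ ^ 2 - 2 * ‖b‖ * t + 1 / η * t ^ 2 := by
      field_simp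
      ring
    rw [h5] at h4
    linarith
  nlinarith

theorem par_eta (U V W q C c ε : ℝ) (hε : 0 < ε) : ∃ η : ℝ, 0 < η ∧ η ≤ 1 ∧
    (1 + η) * ((U + q * (2 * (η ^ 2) ^ 2)) ^ 2 + (V + q * ((4 * C + 1) * (2 * (η ^ 2) ^ 2))) +
      (W + q * (q * (2 * C * (c * η ^ 2) + (c * η ^ 2) ^ 2))) + η) +
      (η ^ 3 + η ^ 4) * (q * (q * (4 * C + 3))) ≤ U ^ 2 + V + W + ε := by
  obtain ⟨Φ, hΦ⟩ : ∃ Φ : ℝ → ℝ, Φ = fun η =>
    (1 + η) * ((U + q * (2 * (η ^ 2) ^ 2)) ^ 2 + (V + q * ((4 * C + 1) * (2 * (η ^ 2) ^ 2))) +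
      (W + q * (q * (2 * C * (c * η ^ 2) + (c * η ^ 2) ^ 2))) + η) +
      (η ^ 3 + η ^ 4) * (q * (q * (4 * C + 3))) := ⟨_, rfl⟩
  have h1 : Continuous Φ := by rw [hΦ]; fun_prop
  have h2 : Φ 0 = U ^ 2 + V + W := by rw [hΦ]; ring
  have h3 : ∀ᶠ η in 𝓝 (0 : ℝ), Φ η < U ^ 2 + V + W + ε := by
    have := h1.continuousAt (x := 0)
    unfold ContinuousAt at this
    rw [h2] at this
    exact this.eventually (gt_mem_nhds (by linarith))
  have h4 : ∀ᶠ η in 𝓝[>] (0 : ℝ), Φ η < U ^ 2 + V + W + ε ∧ η ∈ Set.Ioc (0 : ℝ) 1 :=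
    (h3.filter_mono nhdsWithin_le_nhds).and (Ioc_mem_nhdsGT one_pos)
  obtain ⟨η, h5, h6⟩ := h4.exists
  refine ⟨η, h6.1, h6.2, ?_⟩
  rw [hΦ] at h5
  exact h5.le

theorem st_PAR (h1 : ST_PAT) (h2 : ST_RIS) (h3 : ST_EQR) (h4 : ST_FPR) (h5 : ST_MQC)
    (h6 : ST_NRD) (h7 : Pool.Agent.Helper16.CZ.ST_TEQ) : ST_PAR := by
  intro r lev D ψ S hT x Q F hQ hF ε hε
  have hE := h7 r lev D ψ S hT
  -- a common bound
  obtain ⟨C, hC1, hC⟩ : ∃ C : ℝ, 0 ≤ C ∧ ∀ p ∈ Q, ∀ x, ‖F p x‖ ≤ C := by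
    have g1 : ∀ p, ∃ C : ℝ, p ∈ Q → ∀ x, ‖F p x‖ ≤ C := by
      intro p
      by_cases hp : p ∈ Q
      · obtain ⟨C, hC⟩ := (hF p hp).2
        exact ⟨C, fun _ => hC⟩
      · exact ⟨0, fun h => absurd h hp⟩
    choose Cp hCp using g1
    refine ⟨∑ p ∈ Q, |Cp p|, Finset.sum_nonneg fun p _ => abs_nonneg _, fun p hp x => ?_⟩
    calc ‖F p x‖ ≤ Cp p := hCp p hp x
      _ ≤ |Cp p| := le_abs_self _
      _ ≤ _ := Finset.single_le_sum (f := fun p => |Cp p|) (fun p _ => abs_nonneg _) hp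
  obtain ⟨c, hc0, hc⟩ : ∃ c : ℝ, 0 ≤ c ∧ c ^ 2 = 2 * (2 * C + 1) :=
    ⟨Real.sqrt (2 * (2 * C + 1)), Real.sqrt_nonneg _, Real.sq_sqrt (by linarith)⟩
  obtain ⟨q, hq⟩ : ∃ q : ℝ, q = (Q.card : ℝ) := ⟨_, rfl⟩
  have hq0 : 0 ≤ q := by rw [hq]; exact Nat.cast_nonneg _
  obtain ⟨U, hU⟩ : ∃ U : ℝ, U = ‖∑ p ∈ Q, ∫ y, F p y ∂(mm r)‖ := ⟨_, rfl⟩
  obtain ⟨V, hV⟩ : ∃ V : ℝ, V = ∑ p ∈ Q, ∫ y, ‖F p y‖ ^ 2 ∂(mm r) := ⟨_, rfl⟩
  obtain ⟨W, hW⟩ : ∃ W : ℝ, W = ∑ p ∈ Q, ∑ q ∈ Q.erase p, mq lev q (F p) := ⟨_, rfl⟩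
  rw [← hU, ← hV, ← hW]
  obtain ⟨η, hη, hη1, hΦ⟩ := par_eta U V W q C c ε hε
  -- approximations
  have happ : ∀ p, ∃ (cp : (Fin r → ℤ) →₀ ℂ) (R : T r → ℝ), Continuous R ∧ (p ∈ Q →
      (∀ x, ‖F p x - ∑ X ∈ cp.support, cp X * mFourier X x‖ ≤ R x) ∧ (∀ x, R x ≤ 2 * C + 1) ∧
      ∫ x, R x ∂(mm r) ≤ 2 * (η ^ 2) ^ 2) := by
    intro p
    by_cases hp : p ∈ Q
    · obtain ⟨c', R, g1, g2, g3, g4⟩ := par_apx h2 (hF p hp) (hC p hp)
        (δ := (η ^ 2) ^ 2) (by positivity) (by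
          have : η ^ 2 ≤ 1 := pow_le_one₀ hη.le hη1
          exact pow_le_one₀ (by positivity) this)
      exact ⟨c', R, g1, fun _ => ⟨g2, g3, g4⟩⟩
    · exact ⟨0, fun _ => 0, continuous_const, fun h => absurd h hp⟩
  choose a R hRc hap using happ
  obtain ⟨A, hA⟩ : ∃ A : Finset (Fin r → ℤ), A = insert 0 (Q.biUnion fun p => (a p).support) :=
    ⟨_, rfl⟩
  have h0 : (0 : Fin r → ℤ) ∈ A := by
    rw [hA]
    exact Finset.mem_insert_self _ _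
  have hPe : ∀ p ∈ Q, ∀ y, ∑ X ∈ (a p).support, a p X * mFourier X y =
      ∑ X ∈ A, a p X * mFourier X y := by
    intro p hp y
    refine Finset.sum_subset ?_ ?_
    · intro X hX
      rw [hA]
      exact Finset.mem_insert_of_mem (Finset.mem_biUnion.2 ⟨p, hp, hX⟩)
    · intro X _ hX
      rw [Finsupp.notMem_support_iff.1 hX, zero_mul]
  have hd : ∀ p ∈ Q, ∀ y, ‖F p y - ∑ X ∈ A, a p X * mFourier X y‖ ≤ R p y := by
    intro p hp y
    rw [← hPe p hp y]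
    exact (hap p hp).1 y
  have hb : ∀ p ∈ Q, _ := fun p hp => par_one h4 h5 h6 lev (hF p hp) (hC p hp) hC1 A (a p) h0
    (hRc p) (hd p hp) (hap p hp).2.1 (δ := η ^ 2) (by positivity) (hap p hp).2.2 hc0 hc
  -- the trigonometric polynomials
  have hu : ‖∑ p ∈ Q, a p 0‖ ≤ U + q * (2 * (η ^ 2) ^ 2) := by
    have g1 : ‖∑ p ∈ Q, a p 0 - ∑ p ∈ Q, ∫ y, F p y ∂(mm r)‖ ≤ q * (2 * (η ^ 2) ^ 2) := by
      rw [← Finset.sum_sub_distrib]
      refine (norm_sum_le _ _).trans ?_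
      rw [hq, ← nsmul_eq_mul]
      exact Finset.sum_le_card_nsmul _ _ _ fun p hp => (hb p hp).1
    calc ‖∑ p ∈ Q, a p 0‖ = ‖∑ p ∈ Q, ∫ y, F p y ∂(mm r) +
          (∑ p ∈ Q, a p 0 - ∑ p ∈ Q, ∫ y, F p y ∂(mm r))‖ := by congr 1; ring
      _ ≤ _ := norm_add_le _ _
      _ ≤ _ := by rw [← hU]; linarith
  have hv : ∑ p ∈ Q, ∑ X ∈ A, ‖a p X‖ ^ 2 ≤ V + q * ((4 * C + 1) * (2 * (η ^ 2) ^ 2)) := by
    calc ∑ p ∈ Q, ∑ X ∈ A, ‖a p X‖ ^ 2 ≤ ∑ p ∈ Q, (∫ y, ‖F p y‖ ^ 2 ∂(mm r) +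
          (4 * C + 1) * (2 * (η ^ 2) ^ 2)) := Finset.sum_le_sum fun p hp => (hb p hp).2.1
      _ = _ := by rw [Finset.sum_add_distrib, Finset.sum_const, nsmul_eq_mul, ← hV, ← hq]
  have hcr : 0 ≤ 2 * C * (c * η ^ 2) + (c * η ^ 2) ^ 2 := by positivity
  have hw : ∑ p ∈ Q, ∑ q ∈ Q.erase p, ∑ X ∈ A, (RR lev q).indicator (fun X => ‖a p X‖ ^ 2) X ≤
      W + q * (q * (2 * C * (c * η ^ 2) + (c * η ^ 2) ^ 2)) := by
    calc ∑ p ∈ Q, ∑ q ∈ Q.erase p, ∑ X ∈ A, (RR lev q).indicator (fun X => ‖a p X‖ ^ 2) X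
        ≤ ∑ p ∈ Q, ∑ q ∈ Q.erase p, (mq lev q (F p) +
          (2 * C * (c * η ^ 2) + (c * η ^ 2) ^ 2)) :=
          Finset.sum_le_sum fun p hp => Finset.sum_le_sum fun q' _ => (hb p hp).2.2.1 q'
      _ = W + ∑ p ∈ Q, ∑ q ∈ Q.erase p, (2 * C * (c * η ^ 2) + (c * η ^ 2) ^ 2) := by
          simp only [Finset.sum_add_distrib]
          rw [← hW]
      _ ≤ W + ∑ p ∈ Q, (q * (2 * C * (c * η ^ 2) + (c * η ^ 2) ^ 2)) := by
          refine add_le_add le_rfl (Finset.sum_le_sum fun p _ => ?_)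
          rw [Finset.sum_const, nsmul_eq_mul]
          refine mul_le_mul_of_nonneg_right ?_ hcr
          rw [hq]
          exact_mod_cast Finset.card_le_card (Finset.erase_subset _ _)
      _ = _ := by rw [Finset.sum_const, nsmul_eq_mul, ← hq]
  have e1 := h1 r lev D ψ S hT x Q A (fun p X => a p X) hQ h0 η hη
  -- the errors
  have e2 : ∀ p ∈ Q, ∀ᶠ M : ℕ in atTop, ∑ y ∈ Icc 1 M, R p (S^[p * y] x) ^ 2 ≤
      ((2 * C + 1) * (2 * (η ^ 2) ^ 2) + η ^ 4) * M := by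
    intro p hp
    have g1 := (h3 r S hE (fun y => ((R p y ^ 2 : ℝ) : ℂ))
      (RI.of_continuous (Complex.continuous_ofReal.comp ((hRc p).pow 2))) p x
      (hQ p hp).one_lt.le).2
    have g2 : ∫ y, ((R p y ^ 2 : ℝ) : ℂ) ∂(mm r) = ((∫ y, R p y ^ 2 ∂(mm r) : ℝ) : ℂ) :=
      integral_ofReal
    rw [g2] at g1
    have g3 := (Complex.continuous_re.tendsto _).comp g1
    have g4 : ∀ M : ℕ, (Complex.re ∘ fun N : ℕ => (∑ n ∈ Icc 1 N,
        ((R p (S^[p * n] x) ^ 2 : ℝ) : ℂ)) / (N : ℂ)) M =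
        (∑ y ∈ Icc 1 M, R p (S^[p * y] x) ^ 2) / M := by
      intro M
      simp only [Function.comp_apply]
      rw [← Complex.ofReal_sum, ← Complex.ofReal_natCast, ← Complex.ofReal_div, Complex.ofReal_re]
    have g5 : Tendsto (fun M : ℕ => (∑ y ∈ Icc 1 M, R p (S^[p * y] x) ^ 2) / (M : ℝ)) atTop
        (𝓝 (∫ y, R p y ^ 2 ∂(mm r))) := by
      rw [Complex.ofReal_re] at g3
      exact g3.congr g4
    have g6 : ∫ y, R p y ^ 2 ∂(mm r) < (2 * C + 1) * (2 * (η ^ 2) ^ 2) + η ^ 4 := by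
      have := (hb p hp).2.2.2
      have : 0 < η ^ 4 := by positivity
      linarith
    filter_upwards [g5.eventually (gt_mem_nhds g6), eventually_gt_atTop 0] with M hM hM0
    have hM0' : (0 : ℝ) < M := by exact_mod_cast hM0
    rw [div_lt_iff₀ hM0'] at hM
    exact hM.le
  have e3 : ∀ᶠ M : ℕ in atTop, ∀ p ∈ Q, ∑ y ∈ Icc 1 M, R p (S^[p * y] x) ^ 2 ≤
      ((2 * C + 1) * (2 * (η ^ 2) ^ 2) + η ^ 4) * M := by
    rw [Filter.eventually_all_finset]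
    exact e2
  filter_upwards [e1, e3] with M k1 k2
  have hM : (0 : ℝ) ≤ M := Nat.cast_nonneg M
  have k3 : ∑ y ∈ Icc 1 M, ‖∑ p ∈ Q, F p (S^[p * y] x)‖ ^ 2 ≤
      (1 + η) * ∑ y ∈ Icc 1 M, ‖∑ p ∈ Q, ∑ X ∈ A, a p X * mFourier X (S^[p * y] x)‖ ^ 2 +
      (1 + 1 / η) * (q * ∑ p ∈ Q, ∑ y ∈ Icc 1 M, R p (S^[p * y] x) ^ 2) := by
    rw [Finset.sum_comm (s := Q), Finset.mul_sum, Finset.mul_sum, Finset.mul_sum,
      ← Finset.sum_add_distrib]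
    refine Finset.sum_le_sum fun y _ => ?_
    have g1 := par_young (∑ p ∈ Q, F p (S^[p * y] x))
      (∑ p ∈ Q, ∑ X ∈ A, a p X * mFourier X (S^[p * y] x)) hη
      (t := ∑ p ∈ Q, R p (S^[p * y] x)) (by
        rw [← Finset.sum_sub_distrib]
        refine (norm_sum_le _ _).trans ?_
        exact Finset.sum_le_sum fun p hp => hd p hp _)
    refine g1.trans (add_le_add le_rfl ?_)
    refine mul_le_mul_of_nonneg_left ?_ (by positivity)
    rw [hq]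
    exact sq_sum_le_card_mul_sum_sq
  have k4 : ∑ p ∈ Q, ∑ y ∈ Icc 1 M, R p (S^[p * y] x) ^ 2 ≤
      q * (((2 * C + 1) * (2 * (η ^ 2) ^ 2) + η ^ 4) * M) := by
    rw [hq, ← nsmul_eq_mul]
    exact Finset.sum_le_card_nsmul _ _ _ k2
  have k5 : ‖∑ p ∈ Q, a p 0‖ ^ 2 ≤ (U + q * (2 * (η ^ 2) ^ 2)) ^ 2 :=
    pow_le_pow_left₀ (norm_nonneg _) hu 2
  calc ∑ y ∈ Icc 1 M, ‖∑ p ∈ Q, F p (S^[p * y] x)‖ ^ 2 ≤ _ := k3
    _ ≤ (1 + η) * (((U + q * (2 * (η ^ 2) ^ 2)) ^ 2 +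
        (V + q * ((4 * C + 1) * (2 * (η ^ 2) ^ 2))) +
        (W + q * (q * (2 * C * (c * η ^ 2) + (c * η ^ 2) ^ 2))) + η) * M) +
        (1 + 1 / η) * (q * (q * (((2 * C + 1) * (2 * (η ^ 2) ^ 2) + η ^ 4) * M))) := by
        refine add_le_add (mul_le_mul_of_nonneg_left (k1.trans ?_) (by positivity))
          (mul_le_mul_of_nonneg_left (mul_le_mul_of_nonneg_left k4 hq0) (by positivity))
        exact mul_le_mul_of_nonneg_right (by linarith) hM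
    _ = ((1 + η) * ((U + q * (2 * (η ^ 2) ^ 2)) ^ 2 +
        (V + q * ((4 * C + 1) * (2 * (η ^ 2) ^ 2))) +
        (W + q * (q * (2 * C * (c * η ^ 2) + (c * η ^ 2) ^ 2))) + η) +
        (η ^ 3 + η ^ 4) * (q * (q * (4 * C + 3)))) * M := by
        have : (1 + 1 / η) * (q * (q * (((2 * C + 1) * (2 * (η ^ 2) ^ 2) + η ^ 4) * M))) =
            (η ^ 3 + η ^ 4) * (q * (q * (4 * C + 3))) * M := by
          field_simp
          ring
        rw [this]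
        ring
    _ ≤ (U ^ 2 + V + W + ε) * M := mul_le_mul_of_nonneg_right hΦ hM

end Pool.Agent.Helper40.DZ
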