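import Pool.Agent.Helper40.DZ.Stmts

/-!
Stationary positive definite kernels (MP_7a8f48_an, row KER).
-/

open Finset Filter Topology

namespace Pool.Agent.Helper40.DZ

theorem st_KER (h1 : ST_SDL) : ST_KER := by
  rintro N ⟨⟨V, _, _, _, w, hw⟩, hs⟩
  have e0 : ∀ k k' : ℕ, (inner ℂ (w (k + 1)) (w (k' + 1)) : ℂ) = inner ℂ (w k) (w k') := by
    intro k k'
    rw [hw, hw, hs]
  have e1 : ∀ q H : ℕ, ‖∑ h ∈ range H, w (q * h)‖ ^ 2 =
      ∑ h ∈ range H, ∑ h' ∈ range H, N (q * h) (q * h') := by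
    intro q H
    apply Complex.ofReal_injective
    have h2 := inner_self_eq_norm_sq_to_K (𝕜 := ℂ) (∑ h ∈ range H, w (q * h))
    rw [sum_inner] at h2
    simp only [inner_sum, hw] at h2
    rw [Complex.ofReal_sum]
    simp only [Complex.ofReal_sum]
    rw [h2]
    norm_num
  have e2 : ‖w 0‖ ^ 2 = N 0 0 := by
    have := e1 0 1
    simpa using this
  obtain ⟨⟨L, a1, a2, a3, a4⟩, a5⟩ := h1 V w e0
  refine ⟨⟨L, fun q hq => ?_, a2, fun Q b1 b2 => ?_, fun K hK => ?_⟩, fun p H t => ?_⟩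
  · simpa only [e1] using a1 q hq
  · rw [← e2]
    exact a3 Q b1 b2
  · have := e1 1 K
    simp only [one_mul] at this
    rw [← this]
    exact a4 K hK
  · rw [← e1, ← e1, ← mul_pow]
    exact pow_le_pow_left₀ (norm_nonneg _) (a5 p H t) 2

end Pool.Agent.Helper40.DZ
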