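import Pool.Agent.Helper40.DZ.Stmts

/-!
Stationary sequences of vectors: the mean ergodic theorem along multiples of `q` and the
orthogonality of the contributions of coprime `q` (MP_7a8f48_an, row SDL).
-/

set_option autoImplicit false

open Filter Topology Finset

namespace Pool.Agent.Helper62.SDL

noncomputable section

variable {E : Type*} [NormedAddCommGroup E] [InnerProductSpace ℂ E]

/-- A stationary sequence of vectors. -/
def Stat (v : ℕ → E) : Prop := ∀ k l, inner ℂ (v (k + 1)) (v (l + 1)) = inner ℂ (v k) (v l)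

theorem Stat.shift {v : ℕ → E} (h : Stat v) (n k l : ℕ) :
    inner ℂ (v (k + n)) (v (l + n)) = inner ℂ (v k) (v l) := by
  induction n with
  | zero => rfl
  | succ n ih => rw [← add_assoc, ← add_assoc, h, ih]

theorem Stat.sub {v : ℕ → E} (h : Stat v) (q j : ℕ) : Stat (fun k => v (q * k + j)) := by
  intro k l
  have h1 := h.shift q (q * k + j) (q * l + j)
  dsimp only
  rw [show q * (k + 1) + j = q * k + j + q by ring, show q * (l + 1) + j = q * l + j + q by ring]
  exact h1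

theorem Stat.norm {v : ℕ → E} (h : Stat v) (k : ℕ) : ‖v k‖ = ‖v 0‖ := by
  have h1 := h.shift k 0 0
  rw [zero_add] at h1
  rw [inner_self_eq_norm_sq_to_K, inner_self_eq_norm_sq_to_K] at h1
  have h2 : ‖v k‖ ^ 2 = ‖v 0‖ ^ 2 := by exact_mod_cast h1
  exact (pow_left_inj₀ (norm_nonneg _) (norm_nonneg _) two_ne_zero).1 h2

/-- Partial sums from `n` on. -/
def ps (v : ℕ → E) (n H : ℕ) : E := ∑ h ∈ range H, v (h + n)

theorem ps_inner {v : ℕ → E} (h : Stat v) (n H H' : ℕ) :
    inner ℂ (ps v n H) (ps v n H') = inner ℂ (ps v 0 H) (ps v 0 H') := by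
  unfold ps
  simp only [sum_inner, inner_sum]
  refine Finset.sum_congr rfl fun i _ => Finset.sum_congr rfl fun j _ => ?_
  rw [h.shift, h.shift]

theorem ps_norm {v : ℕ → E} (h : Stat v) (n H : ℕ) : ‖ps v n H‖ = ‖ps v 0 H‖ := by
  have h1 := ps_inner h n H H
  rw [inner_self_eq_norm_sq_to_K, inner_self_eq_norm_sq_to_K] at h1
  have h2 : ‖ps v n H‖ ^ 2 = ‖ps v 0 H‖ ^ 2 := by exact_mod_cast h1
  exact (pow_left_inj₀ (norm_nonneg _) (norm_nonneg _) two_ne_zero).1 h2

theorem ps_add (v : ℕ → E) (n H H' : ℕ) : ps v n (H + H') = ps v n H + ps v (H + n) H' := by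
  unfold ps
  rw [sum_range_add]
  congr 1
  refine Finset.sum_congr rfl fun i _ => ?_
  congr 1
  ring

theorem subadd {v : ℕ → E} (h : Stat v) : Subadditive (fun H => ‖ps v 0 H‖) := by
  intro H H'
  dsimp only
  rw [ps_add]
  refine (norm_add_le _ _).trans ?_
  rw [ps_norm h (H + 0)]

/-- The averages from `n` on. -/
def av (v : ℕ → E) (n H : ℕ) : E := ((H : ℂ)⁻¹) • ps v n H

theorem av_norm_eq (v : ℕ → E) (n H : ℕ) : ‖av v n H‖ = ‖ps v n H‖ / H := by
  unfold av
  rw [norm_smul, norm_inv, Complex.norm_natCast]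
  ring

theorem bdd (v : ℕ → E) : BddBelow (Set.range fun n : ℕ => ‖ps v 0 n‖ / (n : ℝ)) :=
  ⟨0, by rintro _ ⟨n, rfl⟩; positivity⟩

/-- The limit of the norms of the averages. -/
def lm {v : ℕ → E} (h : Stat v) : ℝ := (subadd h).lim

theorem tendsto_norm {v : ℕ → E} (h : Stat v) :
    Tendsto (fun H => ‖av v 0 H‖) atTop (𝓝 (lm h)) := by
  have h1 := (subadd h).tendsto_lim (bdd v)
  simp only [av_norm_eq]
  exact h1

theorem lm_le {v : ℕ → E} (h : Stat v) {K : ℕ} (hK : K ≠ 0) : lm h ≤ ‖ps v 0 K‖ / K :=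
  (subadd h).lim_le_div (bdd v) hK

theorem lm_nonneg {v : ℕ → E} (h : Stat v) : 0 ≤ lm h :=
  ge_of_tendsto' (tendsto_norm h) fun _ => norm_nonneg _

/-- The averages from `n` on and from `0` on are close. -/
theorem av_shift {v : ℕ → E} (h : Stat v) (n : ℕ) :
    Tendsto (fun T => av v n T - av v 0 T) atTop (𝓝 0) := by
  rw [tendsto_zero_iff_norm_tendsto_zero]
  have h1 : ∀ T, ‖av v n T - av v 0 T‖ ≤ (2 * n * ‖v 0‖) / T := by
    intro T
    have h2 : ps v n T - ps v 0 T = ps v T n - ps v 0 n := by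
      have e1 := ps_add v 0 T n
      have e2 := ps_add v 0 n T
      rw [add_comm T n, e2] at e1
      simp only [add_zero] at e1
      rw [sub_eq_sub_iff_add_eq_add, add_comm (ps v n T), e1, add_comm]
    have h3 : ∀ m, ‖ps v m n‖ ≤ n * ‖v 0‖ := by
      intro m
      unfold ps
      refine (norm_sum_le _ _).trans ?_
      rw [Finset.sum_congr rfl fun i _ => h.norm (i + m), sum_const, card_range, nsmul_eq_mul]
    unfold av
    rw [← smul_sub, norm_smul, norm_inv, Complex.norm_natCast, h2]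
    have h4 : ‖ps v T n - ps v 0 n‖ ≤ 2 * n * ‖v 0‖ :=
      (norm_sub_le _ _).trans (by linarith [h3 T, h3 0])
    rw [inv_mul_eq_div]
    gcongr
  refine squeeze_zero (fun _ => norm_nonneg _) h1 ?_
  exact tendsto_const_div_atTop_nhds_zero_nat _

theorem av_av (v : ℕ → E) (H T : ℕ) :
    ((T : ℂ)⁻¹) • ∑ n ∈ range T, av v n H = ((H : ℂ)⁻¹) • ∑ n ∈ range H, av v n T := by
  have h1 : ∑ n ∈ range T, ps v n H = ∑ n ∈ range H, ps v n T := by
    unfold ps
    rw [sum_comm]
    refine Finset.sum_congr rfl fun i _ => Finset.sum_congr rfl fun j _ => ?_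
    rw [add_comm]
  unfold av
  rw [← smul_sum, ← smul_sum, smul_comm, h1]

/-- The average of averages from `n` on. -/
theorem tendsto_av_av {v : ℕ → E} (h : Stat v) {H : ℕ} (hH : H ≠ 0) :
    Tendsto (fun T : ℕ => ((T : ℂ)⁻¹) • ∑ n ∈ range T, av v n H - av v 0 T) atTop (𝓝 0) := by
  have h1 : ∀ T : ℕ, ((T : ℂ)⁻¹) • ∑ n ∈ range T, av v n H - av v 0 T =
      ((H : ℂ)⁻¹) • ∑ n ∈ range H, (av v n T - av v 0 T) := by
    intro T
    rw [av_av, sum_sub_distrib, sum_const, card_range, smul_sub]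
    congr 1
    rw [← Nat.cast_smul_eq_nsmul ℂ, smul_smul, inv_mul_cancel₀ (Nat.cast_ne_zero.2 hH), one_smul]
  simp only [h1]
  have h2 : Tendsto (fun T => ∑ n ∈ range H, (av v n T - av v 0 T)) atTop
      (𝓝 (∑ _n ∈ range H, (0 : E))) := tendsto_finsetSum _ fun n _ => av_shift h n
  have h3 := h2.const_smul ((H : ℂ)⁻¹)
  rwa [sum_const_zero, smul_zero] at h3

theorem mid {v : ℕ → E} (h : Stat v) {H H' : ℕ} (hH : H ≠ 0) (hH' : H' ≠ 0) :
    2 * lm h ≤ ‖av v 0 H + av v 0 H'‖ := by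
  have h1 : ∀ n, ‖av v n H + av v n H'‖ = ‖av v 0 H + av v 0 H'‖ := by
    intro n
    have h2 : inner ℂ (av v n H + av v n H') (av v n H + av v n H') =
        inner ℂ (av v 0 H + av v 0 H') (av v 0 H + av v 0 H') := by
      unfold av
      simp only [inner_add_left, inner_add_right, inner_smul_left, inner_smul_right, ps_inner h n]
    rw [inner_self_eq_norm_sq_to_K, inner_self_eq_norm_sq_to_K] at h2
    have h3 : ‖av v n H + av v n H'‖ ^ 2 = ‖av v 0 H + av v 0 H'‖ ^ 2 := by exact_mod_cast h2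
    exact (pow_left_inj₀ (norm_nonneg _) (norm_nonneg _) two_ne_zero).1 h3
  set ρ := ‖av v 0 H + av v 0 H'‖ with hρ
  have h2 : ∀ T : ℕ, ‖((T : ℂ)⁻¹) • ∑ n ∈ range T, av v n H +
      ((T : ℂ)⁻¹) • ∑ n ∈ range T, av v n H'‖ ≤ ρ := by
    intro T
    rw [← smul_add, ← sum_add_distrib, norm_smul, norm_inv, Complex.norm_natCast]
    have h3 : ‖∑ n ∈ range T, (av v n H + av v n H')‖ ≤ T * ρ := by
      refine (norm_sum_le _ _).trans ?_
      rw [Finset.sum_congr rfl fun i _ => h1 i, sum_const, card_range, nsmul_eq_mul]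
    rcases Nat.eq_zero_or_pos T with hT | hT
    · subst hT
      simp [hρ]
    · have hT' : (0 : ℝ) < T := by exact_mod_cast hT
      rw [inv_mul_eq_div, div_le_iff₀ hT']
      linarith
  have h3 := (tendsto_av_av h hH).add (tendsto_av_av h hH')
  have h4 := (tendsto_norm h).const_mul 2
  have h5 : ∀ T : ℕ, 2 * ‖av v 0 T‖ ≤ ρ + ‖((T : ℂ)⁻¹) • ∑ n ∈ range T, av v n H - av v 0 T +
      (((T : ℂ)⁻¹) • ∑ n ∈ range T, av v n H' - av v 0 T)‖ := by
    intro T
    set a := ((T : ℂ)⁻¹) • ∑ n ∈ range T, av v n H with ha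
    set b := ((T : ℂ)⁻¹) • ∑ n ∈ range T, av v n H' with hb
    have h6 : (2 : ℂ) • av v 0 T = (a + b) - (a - av v 0 T + (b - av v 0 T)) := by
      rw [two_smul]; abel
    have h7 : 2 * ‖av v 0 T‖ = ‖(2 : ℂ) • av v 0 T‖ := by
      rw [norm_smul]; norm_num
    rw [h7, h6]
    exact (norm_sub_le _ _).trans (by linarith [h2 T])
  have h6 := (h3.norm).const_add ρ
  rw [add_zero, norm_zero, add_zero] at h6
  exact le_of_tendsto_of_tendsto' h4 h6 h5

theorem para {v : ℕ → E} (h : Stat v) {H H' : ℕ} (hH : H ≠ 0) (hH' : H' ≠ 0) :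
    ‖av v 0 H - av v 0 H'‖ ^ 2 ≤ 2 * (‖av v 0 H‖ ^ 2 - lm h ^ 2) +
      2 * (‖av v 0 H'‖ ^ 2 - lm h ^ 2) := by
  have h1 := parallelogram_law_with_norm ℂ (av v 0 H) (av v 0 H')
  have h2 := mid h hH hH'
  have h3 := lm_nonneg h
  nlinarith [norm_nonneg (av v 0 H + av v 0 H')]

theorem cauchy {v : ℕ → E} (h : Stat v) : CauchySeq (fun H => av v 0 H) := by
  rw [Metric.cauchySeq_iff]
  intro ε hε
  have h1 : Tendsto (fun H => ‖av v 0 H‖ ^ 2 - lm h ^ 2) atTop (𝓝 0) := by
    have := ((tendsto_norm h).pow 2).sub_const (lm h ^ 2)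
    rwa [sub_self] at this
  have h2 : ∀ᶠ H in atTop, ‖av v 0 H‖ ^ 2 - lm h ^ 2 < ε ^ 2 / 4 :=
    h1.eventually_lt_const (by positivity)
  obtain ⟨N, hN⟩ := (h2.and (eventually_ne_atTop 0)).exists_forall_of_atTop
  refine ⟨N, fun m hm n hn => ?_⟩
  have h3 := para h (hN m hm).2 (hN n hn).2
  have h4 := (hN m hm).1
  have h5 := (hN n hn).1
  rw [dist_eq_norm]
  have h6 : ‖av v 0 m - av v 0 n‖ ^ 2 < ε ^ 2 := by linarith
  exact lt_of_pow_lt_pow_left₀ 2 hε.le h6

/-! ### Limits, in a complete space -/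

section Complete

variable [CompleteSpace E] {w : ℕ → E}

/-- The limit of the averages over the residue class of `j` modulo `q`. -/
def lz (h : Stat w) (q j : ℕ) : E := (cauchySeq_tendsto_of_complete (cauchy (h.sub q j))).choose

theorem lz_spec (h : Stat w) (q j : ℕ) :
    Tendsto (fun H => av (fun k => w (q * k + j)) 0 H) atTop (𝓝 (lz h q j)) :=
  (cauchySeq_tendsto_of_complete (cauchy (h.sub q j))).choose_spec

theorem lz_shift (h : Stat w) (q j n : ℕ) :
    Tendsto (fun H => av (fun k => w (q * k + j)) n H) atTop (𝓝 (lz h q j)) := by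
  have h1 := (av_shift (h.sub q j) n).add (lz_spec h q j)
  simp only [sub_add_cancel, zero_add] at h1
  exact h1

theorem lz_period (h : Stat w) (q j : ℕ) : lz h q (j + q) = lz h q j := by
  refine tendsto_nhds_unique (lz_spec h q (j + q)) ?_
  have h1 := lz_shift h q j 1
  have h2 : ∀ H, av (fun k => w (q * k + j)) 1 H = av (fun k => w (q * k + (j + q))) 0 H := by
    intro H
    unfold av ps
    congr 1
    refine Finset.sum_congr rfl fun k _ => ?_
    have h3 : q * (k + 1) + j = q * (k + 0) + (j + q) := by ring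
    exact congrArg w h3
  simpa only [h2] using h1

theorem lz_period_mul (h : Stat w) (q j a : ℕ) : lz h q (j + q * a) = lz h q j := by
  induction a with
  | zero => rw [mul_zero, add_zero]
  | succ a ih => rw [mul_add, mul_one, ← add_assoc, lz_period, ih]

theorem lz_mod (h : Stat w) (q j : ℕ) : lz h q j = lz h q (j % q) := by
  conv_lhs => rw [← Nat.mod_add_div j q]
  exact lz_period_mul h q (j % q) (j / q)

theorem ps_split (w : ℕ → E) (q T : ℕ) :
    ps w 0 (q * T) = ∑ j ∈ range q, ps (fun k => w (q * k + j)) 0 T := by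
  induction T with
  | zero => simp [ps]
  | succ T ih =>
    rw [mul_add, mul_one, ps_add, ih]
    have h1 : ∀ j, ps (fun k => w (q * k + j)) 0 (T + 1) =
        ps (fun k => w (q * k + j)) 0 T + w (q * T + j) := by
      intro j
      unfold ps
      rw [sum_range_succ]
      rfl
    rw [Finset.sum_congr rfl fun j _ => h1 j, sum_add_distrib]
    congr 1
    unfold ps
    refine Finset.sum_congr rfl fun j _ => ?_
    congr 1
    ring

theorem lz_mean (h : Stat w) {q : ℕ} (hq : q ≠ 0) :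
    ((q : ℂ)⁻¹) • ∑ j ∈ range q, lz h q j = lz h 1 0 := by
  have h1 : Tendsto (fun T : ℕ => ((q : ℂ)⁻¹) • ∑ j ∈ range q,
      av (fun k => w (q * k + j)) 0 T) atTop (𝓝 (((q : ℂ)⁻¹) • ∑ j ∈ range q, lz h q j)) :=
    (tendsto_finsetSum _ fun j _ => lz_spec h q j).const_smul _
  have h2 : ∀ T : ℕ, ((q : ℂ)⁻¹) • ∑ j ∈ range q, av (fun k => w (q * k + j)) 0 T =
      av (fun k => w (1 * k + 0)) 0 (q * T) := by
    intro T
    unfold av
    rw [← smul_sum, ← ps_split, smul_smul, Nat.cast_mul, mul_inv]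
    congr 1
    unfold ps
    refine Finset.sum_congr rfl fun k _ => ?_
    congr 1
    ring
  simp only [h2] at h1
  have h3 : Tendsto (fun T : ℕ => q * T) atTop atTop :=
    tendsto_id.const_mul_atTop' (Nat.pos_of_ne_zero hq)
  exact tendsto_nhds_unique h1 ((lz_spec h 1 0).comp h3)

theorem lz_inner (h : Stat w) (q q' j j' : ℕ) :
    inner ℂ (lz h q (j + 1)) (lz h q' (j' + 1)) = inner ℂ (lz h q j) (lz h q' j') := by
  have h1 := (lz_spec h q (j + 1)).inner (𝕜 := ℂ) (lz_spec h q' (j' + 1))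
  have h2 := (lz_spec h q j).inner (𝕜 := ℂ) (lz_spec h q' j')
  refine tendsto_nhds_unique h1 ?_
  have h3 : ∀ H, inner ℂ (av (fun k => w (q * k + (j + 1))) 0 H)
      (av (fun k => w (q' * k + (j' + 1))) 0 H) =
      inner ℂ (av (fun k => w (q * k + j)) 0 H) (av (fun k => w (q' * k + j')) 0 H) := by
    intro H
    unfold av ps
    have h4 : inner ℂ (∑ i ∈ range H, w (q * (i + 0) + (j + 1)))
        (∑ l ∈ range H, w (q' * (l + 0) + (j' + 1))) =
        inner ℂ (∑ i ∈ range H, w (q * (i + 0) + j))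
        (∑ l ∈ range H, w (q' * (l + 0) + j')) := by
      simp only [sum_inner, inner_sum]
      refine Finset.sum_congr rfl fun i _ => Finset.sum_congr rfl fun l _ => ?_
      rw [← add_assoc, ← add_assoc, h]
    rw [inner_smul_left, inner_smul_right, inner_smul_left, inner_smul_right, h4]
  simp only [h3]
  exact h2

theorem lz_inner_add (h : Stat w) (q q' j j' n : ℕ) :
    inner ℂ (lz h q (j + n)) (lz h q' (j' + n)) = inner ℂ (lz h q j) (lz h q' j') := by
  induction n with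
  | zero => rfl
  | succ n ih => rw [← add_assoc, ← add_assoc, lz_inner, ih]

/-- Sum over the multiples of `q` modulo `q'`. -/
theorem sum_perm (h : Stat w) {q q' : ℕ} (hq : Nat.Coprime q q') (hq' : q' ≠ 0) :
    ∑ a ∈ range q', lz h q' (q * a) = ∑ j ∈ range q', lz h q' j := by
  have h1 : ∀ a, lz h q' (q * a) = lz h q' (q * a % q') := fun a => lz_mod h q' (q * a)
  rw [Finset.sum_congr rfl fun a _ => h1 a]
  have hinj : Set.InjOn (fun a => q * a % q') (range q' : Set ℕ) := by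
    intro a ha b hb hab
    rw [Finset.mem_coe, Finset.mem_range] at ha hb
    have h2 : q * a ≡ q * b [MOD q'] := hab
    have h3 := Nat.ModEq.cancel_left_of_coprime (by rwa [Nat.gcd_comm]) h2
    exact Nat.ModEq.eq_of_lt_of_lt h3 ha hb
  have himg : (range q').image (fun a => q * a % q') = range q' := by
    apply Finset.eq_of_subset_of_card_le
    · intro x hx
      rw [Finset.mem_image] at hx
      obtain ⟨a, -, rfl⟩ := hx
      exact Finset.mem_range.2 (Nat.mod_lt _ (Nat.pos_of_ne_zero hq'))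
    · rw [Finset.card_image_of_injOn hinj]
  conv_rhs => rw [← himg]
  rw [Finset.sum_image hinj]

theorem lz_one (h : Stat w) (n : ℕ) : lz h 1 n = lz h 1 0 := by
  rw [lz_mod, Nat.mod_one]

theorem smul_mean (x : E) {q : ℕ} (hq : q ≠ 0) : ((q : ℂ)⁻¹) • ∑ _j ∈ range q, x = x := by
  rw [sum_const, card_range, ← Nat.cast_smul_eq_nsmul ℂ, smul_smul,
    inv_mul_cancel₀ (Nat.cast_ne_zero.2 hq), one_smul]

theorem inner_one (h : Stat w) {q : ℕ} (hq : q ≠ 0) :
    inner ℂ (lz h q 0) (lz h 1 0) = inner ℂ (lz h 1 0) (lz h 1 0) := by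
  have h1 : ∀ j, inner ℂ (lz h q j) (lz h 1 0) = inner ℂ (lz h q 0) (lz h 1 0) := by
    intro j
    have h2 := lz_inner_add h q 1 0 0 j
    rw [zero_add, lz_one] at h2
    exact h2
  have h2 : inner ℂ (((q : ℂ)⁻¹) • ∑ j ∈ range q, lz h q j) (lz h 1 0) =
      inner ℂ (lz h q 0) (lz h 1 0) := by
    rw [inner_smul_left, sum_inner, Finset.sum_congr rfl fun j _ => h1 j, sum_const, card_range,
      nsmul_eq_mul, map_inv₀, Complex.conj_natCast, ← mul_assoc,
      inv_mul_cancel₀ (Nat.cast_ne_zero.2 hq), one_mul]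
  rw [← h2, lz_mean h hq]

theorem inner_coprime (h : Stat w) {q q' : ℕ} (hc : Nat.Coprime q q') (hq : q ≠ 0)
    (hq' : q' ≠ 0) : inner ℂ (lz h q 0) (lz h q' 0) = inner ℂ (lz h 1 0) (lz h 1 0) := by
  have h1 : ∀ a, inner ℂ (lz h q 0) (lz h q' (q * a)) = inner ℂ (lz h q 0) (lz h q' 0) := by
    intro a
    have h2 := lz_inner_add h q q' 0 0 (q * a)
    rw [lz_period_mul, zero_add] at h2
    exact h2
  have h2 : inner ℂ (lz h q 0) (((q' : ℂ)⁻¹) • ∑ a ∈ range q', lz h q' (q * a)) =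
      inner ℂ (lz h q 0) (lz h q' 0) := by
    rw [inner_smul_right, inner_sum, Finset.sum_congr rfl fun j _ => h1 j, sum_const, card_range,
      nsmul_eq_mul, ← mul_assoc, inv_mul_cancel₀ (Nat.cast_ne_zero.2 hq'), one_mul]
  rw [← h2, sum_perm h hc hq', lz_mean h hq', inner_one h hq]

theorem inner_start (h : Stat w) (q : ℕ) :
    inner ℂ (w 0) (lz h q 0) = inner ℂ (lz h q 0) (lz h q 0) := by
  have h1 : ∀ k, inner ℂ (w (q * k)) (lz h q 0) = inner ℂ (w 0) (lz h q 0) := by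
    intro k
    have h2 := (tendsto_const_nhds (x := w (q * k))).inner (𝕜 := ℂ) (lz_shift h q 0 k)
    have h3 := (tendsto_const_nhds (x := w 0)).inner (𝕜 := ℂ) (lz_spec h q 0)
    refine tendsto_nhds_unique h2 ?_
    have h4 : ∀ H, inner ℂ (w (q * k)) (av (fun k => w (q * k + 0)) k H) =
        inner ℂ (w 0) (av (fun k => w (q * k + 0)) 0 H) := by
      intro H
      unfold av ps
      simp only [inner_smul_right, inner_sum]
      congr 1
      refine Finset.sum_congr rfl fun i _ => ?_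
      have h5 := h.shift (q * k) 0 (q * i)
      rw [zero_add] at h5
      rw [add_zero, add_zero, add_zero, mul_add]
      exact h5
    simp only [h4]
    exact h3
  have h2 := (lz_spec h q 0).inner (𝕜 := ℂ) (tendsto_const_nhds (x := lz h q 0))
  refine tendsto_nhds_unique ?_ h2
  have h3 : ∀ᶠ H in atTop, inner ℂ (w 0) (lz h q 0) =
      inner ℂ (av (fun k => w (q * k + 0)) 0 H) (lz h q 0) := by
    filter_upwards [eventually_ne_atTop 0] with H hH
    unfold av ps
    rw [inner_smul_left, sum_inner]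
    simp only [add_zero]
    rw [Finset.sum_congr rfl fun j _ => h1 j, sum_const, card_range, nsmul_eq_mul, map_inv₀,
      Complex.conj_natCast, ← mul_assoc, inv_mul_cancel₀ (Nat.cast_ne_zero.2 hH), one_mul]
  exact tendsto_const_nhds.congr' h3

theorem bessel (h : Stat w) (Q : Finset ℕ) (h0 : ∀ q ∈ Q, q ≠ 0)
    (hQ : ∀ q ∈ Q, ∀ q' ∈ Q, q ≠ q' → Nat.Coprime q q') :
    ∑ q ∈ Q, (‖lz h q 0‖ ^ 2 - ‖lz h 1 0‖ ^ 2) ≤ ‖w 0‖ ^ 2 ∧
      ∀ q ∈ Q, ‖lz h 1 0‖ ^ 2 ≤ ‖lz h q 0‖ ^ 2 := by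
  set z := fun q => lz h q 0 with hz
  have e1 : ∀ q ∈ Q, ∀ q' ∈ Q, q ≠ q' → inner ℂ (z q - z 1) (z q' - z 1) = 0 := by
    intro q hq q' hq' hne
    have a1 := inner_coprime h (hQ q hq q' hq' hne) (h0 q hq) (h0 q' hq')
    have a2 := inner_one h (h0 q hq)
    have a3 : inner ℂ (z 1) (z q') = inner ℂ (z 1) (z 1) := by
      rw [← inner_conj_symm, show inner ℂ (z q') (z 1) = inner ℂ (z 1) (z 1) from
        inner_one h (h0 q' hq'), inner_conj_symm]
    rw [inner_sub_left, inner_sub_right, inner_sub_right, a3]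
    change inner ℂ (z q) (z q') - inner ℂ (z q) (z 1) - _ = 0
    rw [show inner ℂ (z q) (z q') = inner ℂ (z 1) (z 1) from a1,
      show inner ℂ (z q) (z 1) = inner ℂ (z 1) (z 1) from a2]
    ring
  have e2 : ∀ q ∈ Q, inner ℂ (z q - z 1) (z q - z 1) =
      inner ℂ (z q) (z q) - inner ℂ (z 1) (z 1) := by
    intro q hq
    have a2 : inner ℂ (z q) (z 1) = inner ℂ (z 1) (z 1) := inner_one h (h0 q hq)
    have a3 : inner ℂ (z 1) (z q) = inner ℂ (z 1) (z 1) := by
      rw [← inner_conj_symm, a2, inner_conj_symm]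
    rw [inner_sub_left, inner_sub_right, inner_sub_right, a3, a2]
    ring
  have e3 : ∀ q ∈ Q, inner ℂ (w 0) (z q - z 1) = inner ℂ (z q) (z q) - inner ℂ (z 1) (z 1) := by
    intro q _
    rw [inner_sub_right, show inner ℂ (w 0) (z q) = inner ℂ (z q) (z q) from inner_start h q,
      show inner ℂ (w 0) (z 1) = inner ℂ (z 1) (z 1) from inner_start h 1]
  have e4 : ∀ q ∈ Q, ‖z q - z 1‖ ^ 2 = ‖z q‖ ^ 2 - ‖z 1‖ ^ 2 := by
    intro q hq
    have := e2 q hq
    rw [inner_self_eq_norm_sq_to_K, inner_self_eq_norm_sq_to_K, inner_self_eq_norm_sq_to_K] at this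
    exact_mod_cast this
  refine ⟨?_, fun q hq => ?_⟩
  · set s := ∑ q ∈ Q, (z q - z 1) with hs
    have f1 : inner ℂ s s = ((∑ q ∈ Q, (‖z q‖ ^ 2 - ‖z 1‖ ^ 2) : ℝ) : ℂ) := by
      rw [hs, sum_inner, Complex.ofReal_sum]
      refine Finset.sum_congr rfl fun q hq => ?_
      rw [inner_sum, Finset.sum_eq_single q]
      · rw [← e4 q hq, inner_self_eq_norm_sq_to_K]
        norm_num
      · intro q' hq' hne
        exact e1 q hq q' hq' hne.symm
      · intro hn
        exact absurd hq hn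
    have f2 : inner ℂ (w 0) s = ((∑ q ∈ Q, (‖z q‖ ^ 2 - ‖z 1‖ ^ 2) : ℝ) : ℂ) := by
      rw [hs, inner_sum, Complex.ofReal_sum]
      refine Finset.sum_congr rfl fun q hq => ?_
      rw [e3 q hq, inner_self_eq_norm_sq_to_K, inner_self_eq_norm_sq_to_K]
      norm_num
    have f3 : ‖s‖ ^ 2 = ∑ q ∈ Q, (‖z q‖ ^ 2 - ‖z 1‖ ^ 2) := by
      rw [inner_self_eq_norm_sq_to_K] at f1
      apply Complex.ofReal_injective
      rw [← f1]
      norm_num
    have f4 := norm_sub_sq (𝕜 := ℂ) (w 0) s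
    rw [f2, f3] at f4
    have f5 : RCLike.re (K := ℂ) ((∑ q ∈ Q, (‖z q‖ ^ 2 - ‖z 1‖ ^ 2) : ℝ) : ℂ) =
        ∑ q ∈ Q, (‖z q‖ ^ 2 - ‖z 1‖ ^ 2) := Complex.ofReal_re _
    rw [f5] at f4
    have f6 := sq_nonneg ‖w 0 - s‖
    change ∑ q ∈ Q, (‖z q‖ ^ 2 - ‖z 1‖ ^ 2) ≤ ‖w 0‖ ^ 2
    linarith
  · have f1 := sq_nonneg ‖z q - z 1‖
    rw [e4 q hq] at f1
    change ‖z 1‖ ^ 2 ≤ ‖z q‖ ^ 2
    linarith

end Complete

/-! ### The statement for an arbitrary inner product space -/

open UniformSpace in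
theorem coe_stat {w : ℕ → E} (h : Stat w) : Stat (fun k => (w k : Completion E)) := by
  intro k l
  dsimp only
  rw [Completion.inner_coe, Completion.inner_coe, h]

open UniformSpace in
theorem coe_ps (w : ℕ → E) (n H : ℕ) :
    ps (fun k => (w k : Completion E)) n H = ((ps w n H : E) : Completion E) := by
  unfold ps
  induction H with
  | zero =>
    rw [sum_range_zero, sum_range_zero]
    exact Completion.coe_zero.symm
  | succ H ih => rw [sum_range_succ, sum_range_succ, Completion.coe_add, ih]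

/-- The square of the norm of the average over the first `H` multiples of `q`. -/
def sq (w : ℕ → E) (q H : ℕ) : ℝ := ‖∑ h ∈ range H, w (q * h)‖ ^ 2 / (H : ℝ) ^ 2

theorem sq_eq (w : ℕ → E) (q H : ℕ) : sq w q H = ‖av (fun k => w (q * k + 0)) 0 H‖ ^ 2 := by
  unfold sq
  rw [av_norm_eq, div_pow]
  rfl

/-- The limit of `sq w q H` for `H → ∞`. -/
def LL (w : ℕ → E) (q : ℕ) : ℝ := limUnder atTop (fun H => sq w q H)

open UniformSpace in
theorem LL_tendsto' {w : ℕ → E} (h : Stat w) (q : ℕ) :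
    Tendsto (fun H => sq w q H) atTop (𝓝 (‖lz (coe_stat h) q 0‖ ^ 2)) := by
  have h1 := ((lz_spec (coe_stat h) q 0).norm).pow 2
  have h2 : ∀ H, ‖av (fun k => (w (q * k + 0) : Completion E)) 0 H‖ ^ 2 = sq w q H := by
    intro H
    rw [sq_eq, av_norm_eq, av_norm_eq]
    rw [show ps (fun k => (w (q * k + 0) : Completion E)) 0 H =
      ((ps (fun k => w (q * k + 0)) 0 H : E) : Completion E) from
        coe_ps (fun k => w (q * k + 0)) 0 H, Completion.norm_coe]
  simp only [h2] at h1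
  exact h1

theorem LL_eq {w : ℕ → E} (h : Stat w) (q : ℕ) : LL w q = ‖lz (coe_stat h) q 0‖ ^ 2 :=
  (LL_tendsto' h q).limUnder_eq

/-- The averages over the multiples of `q` converge in norm. -/
theorem LL_tendsto {w : ℕ → E} (h : Stat w) (q : ℕ) :
    Tendsto (fun H => sq w q H) atTop (𝓝 (LL w q)) := by
  rw [LL_eq h]
  exact LL_tendsto' h q

theorem LL_nonneg {w : ℕ → E} (h : Stat w) (q : ℕ) : 0 ≤ LL w q := by
  rw [LL_eq h]; positivity

theorem LL_one_le {w : ℕ → E} (h : Stat w) {q : ℕ} (hq : q ≠ 0) : LL w 1 ≤ LL w q := by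
  rw [LL_eq h, LL_eq h]
  exact (bessel (coe_stat h) {q} (by simpa using hq) (by
    intro a ha b hb hab
    rw [Finset.mem_singleton] at ha hb
    exact absurd (ha.trans hb.symm) hab)).2 q (Finset.mem_singleton_self q)

/-- The contributions of pairwise coprime `q` are orthogonal. -/
theorem LL_sum {w : ℕ → E} (h : Stat w) (Q : Finset ℕ) (h0 : ∀ q ∈ Q, q ≠ 0)
    (hQ : ∀ q ∈ Q, ∀ q' ∈ Q, q ≠ q' → Nat.Coprime q q') :
    ∑ q ∈ Q, (LL w q - LL w 1) ≤ ‖w 0‖ ^ 2 := by
  have h1 := (bessel (coe_stat h) Q h0 hQ).1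
  simp only [← LL_eq h, UniformSpace.Completion.norm_coe] at h1
  exact h1

theorem LL_one_le_sq {w : ℕ → E} (h : Stat w) {K : ℕ} (hK : K ≠ 0) : LL w 1 ≤ sq w 1 K := by
  have h1 := lm_le h hK
  have h2 : Tendsto (fun H => sq w 1 H) atTop (𝓝 (lm h ^ 2)) := by
    have h3 := (tendsto_norm h).pow 2
    have h4 : ∀ H, ‖av w 0 H‖ ^ 2 = sq w 1 H := by
      intro H
      unfold sq
      rw [av_norm_eq, div_pow]
      simp only [one_mul]
      rfl
    simp only [h4] at h3
    exact h3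
  rw [tendsto_nhds_unique (LL_tendsto h 1) h2]
  have h3 : sq w 1 K = (‖ps w 0 K‖ / K) ^ 2 := by
    unfold sq
    rw [div_pow]
    simp only [one_mul]
    rfl
  rw [h3]
  exact pow_le_pow_left₀ (lm_nonneg h) h1 2

/-- Averages over multiples of `H` are at most the average over `H`. -/
theorem sq_mul_le {w : ℕ → E} (h : Stat w) (p H : ℕ) {t : ℕ} (ht : t ≠ 0) :
    sq w p (H * t) ≤ sq w p H := by
  have h1 := h.sub p 0
  have h2 : ∀ t : ℕ, ‖ps (fun k => w (p * k + 0)) 0 (H * t)‖ ≤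
      t * ‖ps (fun k => w (p * k + 0)) 0 H‖ := by
    intro t
    induction t with
    | zero => simp [ps]
    | succ t ih =>
      rw [mul_add, mul_one, ps_add]
      refine (norm_add_le _ _).trans ?_
      rw [ps_norm h1 (H * t + 0) H]
      push_cast
      linarith
  rw [sq_eq, sq_eq, av_norm_eq, av_norm_eq]
  refine pow_le_pow_left₀ (by positivity) ?_ 2
  rcases Nat.eq_zero_or_pos H with hH | hH
  · subst hH
    simp
  have hH' : (0 : ℝ) < H := by exact_mod_cast hH
  have ht' : (0 : ℝ) < t := by exact_mod_cast Nat.pos_of_ne_zero ht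
  rw [Nat.cast_mul, div_le_div_iff₀ (by positivity) hH']
  have := h2 t
  nlinarith

theorem norm_mul_le {w : ℕ → E} (h : Stat w) (p H t : ℕ) :
    ‖∑ h ∈ range (H * t), w (p * h)‖ ≤ t * ‖∑ h ∈ range H, w (p * h)‖ := by
  have h1 := h.sub p 0
  have h2 : ∀ t : ℕ, ‖ps (fun k => w (p * k + 0)) 0 (H * t)‖ ≤
      t * ‖ps (fun k => w (p * k + 0)) 0 H‖ := by
    intro t
    induction t with
    | zero => simp [ps]
    | succ t ih =>
      rw [mul_add, mul_one, ps_add]
      refine (norm_add_le _ _).trans ?_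
      rw [ps_norm h1 (H * t + 0) H]
      push_cast
      linarith
  exact h2 t

/-! ### Kernels -/

/-- The average of the kernel `N` over the multiples of `q`. -/
def AK (N : ℕ → ℕ → ℝ) (q H : ℕ) : ℝ :=
  (∑ h ∈ range H, ∑ h' ∈ range H, N (q * h) (q * h')) / (H : ℝ) ^ 2

theorem sq_kernel {w : ℕ → E} {N : ℕ → ℕ → ℝ} (hN : ∀ k l, inner ℂ (w k) (w l) = (N k l : ℂ))
    (q H : ℕ) : sq w q H = AK N q H := by
  unfold sq AK
  congr 1
  have h1 : ((‖∑ h ∈ range H, w (q * h)‖ ^ 2 : ℝ) : ℂ) =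
      ((∑ h ∈ range H, ∑ h' ∈ range H, N (q * h) (q * h') : ℝ) : ℂ) := by
    have h2 := inner_self_eq_norm_sq_to_K (𝕜 := ℂ) (∑ h ∈ range H, w (q * h))
    rw [sum_inner] at h2
    simp only [inner_sum, hN] at h2
    rw [Complex.ofReal_sum]
    simp only [Complex.ofReal_sum]
    rw [h2]
    norm_num
  exact Complex.ofReal_injective h1

/-- **SDL**, for a stationary kernel that is a Gram matrix. -/
theorem kernel {w : ℕ → E} {N : ℕ → ℕ → ℝ} (hN : ∀ k l, inner ℂ (w k) (w l) = (N k l : ℂ))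
    (hs : ∀ k l, N (k + 1) (l + 1) = N k l) : ∃ L : ℕ → ℝ,
      (∀ q, Tendsto (fun H => AK N q H) atTop (𝓝 (L q))) ∧ (∀ q, 0 ≤ L q) ∧
      (∀ q, q ≠ 0 → L 1 ≤ L q) ∧ (∀ K, K ≠ 0 → L 1 ≤ AK N 1 K) ∧
      (∀ Q : Finset ℕ, (∀ q ∈ Q, q ≠ 0) → (∀ q ∈ Q, ∀ q' ∈ Q, q ≠ q' → Nat.Coprime q q') →
        ∑ q ∈ Q, (L q - L 1) ≤ N 0 0) ∧
      (∀ p H t, t ≠ 0 → AK N p (H * t) ≤ AK N p H) ∧
      (∀ p H, H ≠ 0 → L p ≤ AK N p H) := by
  have hst : Stat w := fun k l => by rw [hN, hN, hs]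
  have hk : ∀ q H, sq w q H = AK N q H := sq_kernel hN
  have h0 : ‖w 0‖ ^ 2 = N 0 0 := by
    have h2 := inner_self_eq_norm_sq_to_K (𝕜 := ℂ) (w 0)
    rw [hN] at h2
    apply Complex.ofReal_injective
    rw [h2]
    norm_num
  have hm : ∀ p H t, t ≠ 0 → AK N p (H * t) ≤ AK N p H := by
    intro p H t ht
    rw [← hk, ← hk]
    exact sq_mul_le hst p H ht
  have hT : ∀ q, Tendsto (fun H => AK N q H) atTop (𝓝 (LL w q)) := by
    intro q
    have := LL_tendsto hst q
    simpa only [hk] using this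
  refine ⟨LL w, hT, LL_nonneg hst, fun q hq => LL_one_le hst hq, fun K hK => ?_,
    fun Q h1 h2 => ?_, hm, fun p H hH => ?_⟩
  · rw [← hk]; exact LL_one_le_sq hst hK
  · rw [← h0]; exact LL_sum hst Q h1 h2
  · have h3 : Tendsto (fun t : ℕ => H * t) atTop atTop :=
      tendsto_id.const_mul_atTop' (Nat.pos_of_ne_zero hH)
    refine le_of_tendsto ((hT p).comp h3) ?_
    filter_upwards [eventually_ne_atTop 0] with t ht
    exact hm p H t ht

end

end Pool.Agent.Helper62.SDL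

namespace Pool.Agent.Helper40.DZ

open Pool.Agent.Helper62.SDL in
theorem st_SDL : ST_SDL := by
  intro V _ _ _ w hw
  have h : Stat w := hw
  refine ⟨⟨LL w, fun q _ => LL_tendsto h q, fun q hq => LL_one_le h (by omega),
    fun Q h1 h2 => LL_sum h Q (fun q hq => by have := h1 q hq; omega) h2, fun K hK => ?_⟩,
    fun p H t => norm_mul_le h p H t⟩
  have h1 := LL_one_le_sq h (K := K) (by omega)
  unfold Pool.Agent.Helper62.SDL.sq at h1
  simpa only [one_mul] using h1

end Pool.Agent.Helper40.DZ
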